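import Pool.Agent.Helper25.GF.Goals

/-!
Project GF, packet EDG: the probability that given edges are present.
-/

set_option autoImplicit false

namespace Pool.Agent.Helper86.GF

open Finset Pool.Agent.Helper25.GF
open scoped Classical

section

variable {d n : ℕ} {F : Finset (ℕ × ℕ)} (hF : ∀ e ∈ F, e.1 < e.2 ∧ e.2 ≤ n)

include hF

theorem ltn (e : {e // e ∈ F}) : e.1.2 - 1 < n := by
  have := hF e.1 e.2
  omega

/-- the place of an edge -/
def gg (c : {e // e ∈ F} → Fin d) (e : {e // e ∈ F}) : Fin n × Fin d :=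
  (⟨e.1.2 - 1, ltn hF e⟩, c e)

theorem gg_fst {c : {e // e ∈ F} → Fin d} {e : {e // e ∈ F}} {t : Fin n} {j : Fin d}
    (h : gg hF c e = (t, j)) : e.1.2 = (t : ℕ) + 1 := by
  have h1 : (⟨e.1.2 - 1, ltn hF e⟩ : Fin n) = t := congrArg Prod.fst h
  have h2 : e.1.2 - 1 = (t : ℕ) := congrArg Fin.val h1
  have := hF e.1 e.2
  omega

/-- allowed values -/
noncomputable def TT (c : {e // e ∈ F} → Fin d) (t : Fin n) (j : Fin d) :
    Finset (Fin ((t : ℕ) + 1)) :=
  univ.filter (fun v => ∀ e, gg hF c e = (t, j) → (v : ℕ) = e.1.1)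

theorem TT_card (c : {e // e ∈ F} → Fin d) (t : Fin n) (j : Fin d) :
    ((TT hF c t j).card : ℝ) ≤ ((t : ℕ) + 1 : ℝ) *
      ∏ e ∈ univ.filter (fun e => gg hF c e = (t, j)), (1 / (e.1.2 : ℝ)) := by
  have ht : (0 : ℝ) < (t : ℕ) + 1 := by positivity
  have hpos : 0 ≤ ((t : ℕ) + 1 : ℝ) *
      ∏ e ∈ univ.filter (fun e => gg hF c e = (t, j)), (1 / (e.1.2 : ℝ)) := by
    apply mul_nonneg ht.le
    exact Finset.prod_nonneg (fun e _ => by positivity)
  rcases (univ.filter (fun e => gg hF c e = (t, j))).eq_empty_or_nonempty with h | ⟨e, he⟩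
  · rw [h, Finset.prod_empty, mul_one]
    have h1 : (TT hF c t j).card ≤ (t : ℕ) + 1 := by
      have h2 := Finset.card_le_univ (TT hF c t j)
      rw [Fintype.card_fin] at h2
      exact h2
    exact_mod_cast h1
  · have he1 : gg hF c e = (t, j) := (Finset.mem_filter.1 he).2
    by_cases h : ∃ e', gg hF c e' = (t, j) ∧ e' ≠ e
    · obtain ⟨e', he', hne⟩ := h
      have h1 : TT hF c t j = ∅ := by
        apply Finset.eq_empty_of_forall_notMem
        intro v hv
        have h2 := (Finset.mem_filter.1 hv).2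
        apply hne
        apply Subtype.ext
        apply Prod.ext
        · rw [← h2 e he1, ← h2 e' he']
        · rw [gg_fst hF he1, gg_fst hF he']
      rw [h1, Finset.card_empty, Nat.cast_zero]
      exact hpos
    · push Not at h
      have h1 : univ.filter (fun e => gg hF c e = (t, j)) = {e} := by
        ext e'
        rw [Finset.mem_filter, Finset.mem_singleton]
        constructor
        · intro h2
          exact h e' h2.2
        · rintro rfl
          exact ⟨Finset.mem_univ _, he1⟩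
      rw [h1, Finset.prod_singleton, gg_fst hF he1]
      push_cast
      rw [mul_one_div_cancel ht.ne']
      have h2 : (TT hF c t j).card ≤ 1 := by
        rw [Finset.card_le_one]
        intro v hv v' hv'
        apply Fin.ext
        rw [(Finset.mem_filter.1 hv).2 e he1, (Finset.mem_filter.1 hv').2 e he1]
      exact_mod_cast h2

theorem AA_card (c : {e // e ∈ F} → Fin d) :
    ((Fintype.piFinset (fun t => Fintype.piFinset (fun j => TT hF c t j))).card : ℝ) ≤
      (Fintype.card (Om d n) : ℝ) * ∏ e : {e // e ∈ F}, (1 / (e.1.2 : ℝ)) := by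
  have h1 : (Fintype.card (Om d n) : ℝ) = ∏ p : Fin n × Fin d, ((p.1 : ℕ) + 1 : ℝ) := by
    rw [Fintype.prod_prod_type, Fintype.card_pi, Nat.cast_prod]
    refine Finset.prod_congr rfl (fun t _ => ?_)
    rw [Fintype.card_pi, Nat.cast_prod]
    refine Finset.prod_congr rfl (fun j _ => ?_)
    rw [Fintype.card_fin]
    push_cast
    rfl
  have h2 : ∏ e : {e // e ∈ F}, (1 / (e.1.2 : ℝ)) =
      ∏ p : Fin n × Fin d, ∏ e ∈ univ.filter (fun e => gg hF c e = p), (1 / (e.1.2 : ℝ)) :=
    (Finset.prod_fiberwise univ (gg hF c) (fun e => (1 / (e.1.2 : ℝ)))).symm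
  rw [h1, h2, ← Finset.prod_mul_distrib, Fintype.card_piFinset, Nat.cast_prod,
    Fintype.prod_prod_type]
  refine Finset.prod_le_prod (fun t _ => by positivity) (fun t _ => ?_)
  rw [Fintype.card_piFinset, Nat.cast_prod]
  exact Finset.prod_le_prod (fun j _ => by positivity) (fun j _ => TT_card hF c t j)

theorem ev_sub (ω : Om d n) (hω : ∀ e ∈ F, e.1 ∈ ch ω e.2) :
    ∃ c, ω ∈ Fintype.piFinset (fun t => Fintype.piFinset (fun j => TT hF c t j)) := by
  have h1 : ∀ e : {e // e ∈ F}, ∃ j, (ω ⟨e.1.2 - 1, ltn hF e⟩ j : ℕ) = e.1.1 := by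
    intro e
    have h2 := hω e.1 e.2
    have h3 := hF e.1 e.2
    unfold ch at h2
    rw [dif_pos ⟨by omega, h3.2⟩] at h2
    obtain ⟨j, -, hj⟩ := Finset.mem_image.1 h2
    exact ⟨j, hj⟩
  choose c hc using h1
  refine ⟨c, ?_⟩
  rw [Fintype.mem_piFinset]
  intro t
  rw [Fintype.mem_piFinset]
  intro j
  refine Finset.mem_filter.2 ⟨Finset.mem_univ _, fun e he => ?_⟩
  have h2 : (⟨e.1.2 - 1, ltn hF e⟩ : Fin n) = t := congrArg Prod.fst he
  have h3 : c e = j := congrArg Prod.snd he
  have h4 := hc e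
  subst h2
  rw [← h3]
  exact h4

theorem ev_card (E : Om d n → Prop) [DecidablePred E]
    (hE : ∀ ω, E ω → ∀ e ∈ F, e.1 ∈ ch ω e.2) :
    ((univ.filter E).card : ℝ) ≤ ∑ _c : {e // e ∈ F} → Fin d,
        (Fintype.card (Om d n) : ℝ) * ∏ e : {e // e ∈ F}, (1 / (e.1.2 : ℝ)) := by
  have h1 : (univ.filter E).card ≤
      ∑ c : {e // e ∈ F} → Fin d,
        (Fintype.piFinset (fun t => Fintype.piFinset (fun j => TT hF c t j))).card := by
    refine (Finset.card_le_card (t := univ.biUnion (fun c =>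
      Fintype.piFinset (fun t => Fintype.piFinset (fun j => TT hF c t j)))) ?_).trans
      Finset.card_biUnion_le
    intro ω hω
    obtain ⟨c, hc⟩ := ev_sub hF ω (hE ω (Finset.mem_filter.1 hω).2)
    exact Finset.mem_biUnion.2 ⟨c, Finset.mem_univ c, hc⟩
  refine (Nat.cast_le.2 h1).trans ?_
  rw [Nat.cast_sum]
  exact Finset.sum_le_sum (fun c _ => AA_card hF c)

end

/-- Packet EDG. -/
theorem edg : Pool.Agent.Helper25.GF.EDG := by
  intro d n F hF
  have hcard : (0 : ℝ) < Fintype.card (Om d n) := by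
    have : 0 < Fintype.card (Om d n) := Fintype.card_pos
    exact_mod_cast this
  unfold Pr
  rw [div_le_iff₀ hcard]
  refine (@ev_card d n F hF (fun ω : Om d n => ∀ e ∈ F, e.1 ∈ ch ω e.2)
    (fun ω => Classical.propDecidable _) (fun ω hω => hω)).trans (le_of_eq ?_)
  rw [Finset.sum_const, Finset.card_univ, Fintype.card_fun, Fintype.card_fin,
    Fintype.card_coe, nsmul_eq_mul, Nat.cast_pow]
  have h3 : ∏ e ∈ F, ((d : ℝ) / e.2) =
      (d : ℝ) ^ F.card * ∏ e : {e // e ∈ F}, (1 / (e.1.2 : ℝ)) := by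
    rw [← Finset.prod_attach F, Finset.univ_eq_attach]
    have h4 : ((d : ℝ) ^ F.card) = ∏ _e ∈ F.attach, (d : ℝ) := by
      rw [Finset.prod_const, Finset.card_attach]
    rw [h4, ← Finset.prod_mul_distrib]
    refine Finset.prod_congr rfl (fun e _ => ?_)
    rw [mul_one_div]
  rw [h3]
  ring

end Pool.Agent.Helper86.GF
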